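import Pool.Agent.H.MP_598c7e_an.A

set_option autoImplicit false

namespace Pool.Agent.H.MP_498700_an
open scoped ENNReal ContDiff Topology
open MeasureTheory Set Filter Real

theorem transl0 {η g : ℝ → ℝ} (hη : Integrable η) (hg : Integrable g)
    (H : ∀ φ : ℝ → ℝ, ContDiff ℝ ∞ φ → HasCompactSupport φ →
      ∫ x, η x * deriv φ x = -∫ x, g x * φ x) {s : ℝ} (hs : 0 ≤ s) :
    ∫⁻ z, ‖η (z + s) - η z‖ₑ ≤ ENNReal.ofReal ((∫ z, ‖g z‖) * s) := by
  obtain ⟨ρ, hρ⟩ : ∃ ρ : Measure ℝ, ρ = volume.restrict (Ioc 0 s) := ⟨_, rfl⟩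
  have : IsFiniteMeasure ρ := hρ ▸ inferInstance
  have i1 : Integrable (fun p : ℝ × ℝ => g p.2) (ρ.prod volume) := hg.comp_snd ρ
  have i2 : Integrable (fun p : ℝ × ℝ => g (p.1 + p.2)) (ρ.prod volume) :=
    (measurePreserving_prod_add ρ volume).integrable_comp_of_integrable i1
  have e : ∀ᵐ z, η (z + s) - η z = ∫ r, g (r + z) ∂ρ := by
    refine ae_eq_of_integral_contDiff_smul_eq ((hη.comp_add_right s).sub hη).locallyIntegrable
      i2.integral_prod_right.locallyIntegrable fun φ φ1 φ2 => ?_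
    have φc := φ1.continuous
    obtain ⟨C, hC⟩ := φ2.exists_bound_of_continuous φc
    have dP : ∀ z, HasDerivAt (fun z => ∫ r in (0 : ℝ)..z, φ r) (φ z) z := fun z =>
      (φc.integral_hasStrictDerivAt 0 z).hasDerivAt
    have dΦ : ∀ z, HasDerivAt (fun z => (∫ r in (0 : ℝ)..z, φ r) - ∫ r in (0 : ℝ)..(z - s), φ r)
        (φ z - φ (z - s)) z := fun z => (dP z).sub ((dP (z - s)).comp_sub_const z s)
    have eΦ : ∀ z, (∫ r in (0 : ℝ)..z, φ r) - ∫ r in (0 : ℝ)..(z - s), φ r = ∫ r, φ (z - r) ∂ρ :=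
      fun z => by
        rw [hρ, ← intervalIntegral.integral_of_le hs, intervalIntegral.integral_comp_sub_left,
          sub_zero, intervalIntegral.integral_interval_sub_left (φc.intervalIntegrable _ _)
          (φc.intervalIntegrable _ _)]
    simp only [eΦ] at dΦ
    have dd : deriv (fun z => ∫ r, φ (z - r) ∂ρ) = fun z => φ z - φ (z - s) :=
      funext fun z => (dΦ z).deriv
    have h := H (fun z => ∫ r, φ (z - r) ∂ρ) (contDiff_infty_iff_deriv.2
      ⟨fun z => (dΦ z).differentiableAt, by rw [dd]; fun_prop⟩) (by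
        obtain ⟨R, hR⟩ := φ2.isCompact.isBounded.subset_closedBall 0
        refine HasCompactSupport.intro (isCompact_closedBall 0 (R + s)) fun z hz => ?_
        rw [hρ]
        refine setIntegral_eq_zero_of_forall_eq_zero fun r hr => ?_
        refine image_eq_zero_of_notMem_tsupport fun h => hz ?_
        have := hR h
        simp only [Metric.mem_closedBall, dist_zero_right, norm_eq_abs, abs_le] at this ⊢
        constructor <;> linarith [hr.1, hr.2, this.1, this.2])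
    rw [dd] at h
    have b1 : Integrable fun x => η x * φ x := hη.mul_bdd φc.aestronglyMeasurable (.of_forall hC)
    have b2 : Integrable fun x => η x * φ (x - s) :=
      hη.mul_bdd (by fun_prop) (.of_forall fun x => hC _)
    have b3 : ∫ x, φ x * η (x + s) = ∫ x, η x * φ (x - s) := by
      rw [← integral_add_right_eq_self (fun x => η x * φ (x - s)) s]
      simp only [add_sub_cancel_right, mul_comm]
    have l : ∫ x, φ x • (η (x + s) - η x) = -∫ x, η x * (φ x - φ (x - s)) := by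
      simp only [smul_eq_mul, mul_sub]
      rw [integral_sub ((hη.comp_add_right s).bdd_mul φc.aestronglyMeasurable (.of_forall hC))
        (hη.bdd_mul φc.aestronglyMeasurable (.of_forall hC)), integral_sub b1 b2, b3]
      simp only [mul_comm (φ _) (η _)]
      ring
    rw [l, h, neg_neg]
    simp only [smul_eq_mul, ← integral_const_mul]
    rw [← integral_integral_swap (f := fun r z => g z * φ (z - r))
      (i1.mul_bdd (by fun_prop) (.of_forall fun x => hC _)),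
      ← integral_integral_swap (f := fun r z => φ z * g (r + z))
      (i2.bdd_mul (by fun_prop) (.of_forall fun x => hC _))]
    refine integral_congr_ae (.of_forall fun r => ?_)
    beta_reduce
    rw [← integral_add_left_eq_self (fun z => g z * φ (z - r)) r]
    simp only [add_sub_cancel_left, mul_comm]
  calc ∫⁻ z, ‖η (z + s) - η z‖ₑ ≤ ∫⁻ z, ∫⁻ r, ‖g (r + z)‖ₑ ∂ρ := by
        refine lintegral_mono_ae ?_
        filter_upwards [e] with z hz
        rw [hz]
        exact enorm_integral_le_lintegral_enorm _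
    _ = ∫⁻ r, (∫⁻ z, ‖g (r + z)‖ₑ) ∂ρ :=
        (lintegral_lintegral_swap (f := fun r z => ‖g (r + z)‖ₑ) i2.1.enorm).symm
    _ = _ := by
        simp only [lintegral_add_left_eq_self (fun z => ‖g z‖ₑ)]
        rw [lintegral_const, hρ, Measure.restrict_apply_univ, Real.volume_Ioc, sub_zero,
          ENNReal.ofReal_mul (by positivity), ofReal_integral_norm_eq_lintegral_enorm hg]

theorem transl {η g : ℝ → ℝ} (hη : Integrable η) (hg : Integrable g)
    (H : ∀ φ : ℝ → ℝ, ContDiff ℝ ∞ φ → HasCompactSupport φ →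
      ∫ x, η x * deriv φ x = -∫ x, g x * φ x) (s : ℝ) :
    ∫⁻ z, ‖η (z + s) - η z‖ₑ ≤ ENNReal.ofReal ((∫ z, ‖g z‖) * |s|) := by
  rcases le_total 0 s with h | h
  · rw [abs_of_nonneg h]; exact transl0 hη hg H h
  · rw [abs_of_nonpos h]
    refine le_of_eq_of_le ?_ (transl0 hη hg H (neg_nonneg.2 h))
    rw [← lintegral_add_right_eq_self (fun z => ‖η (z + -s) - η z‖ₑ) s]
    simp only [add_neg_cancel_right, enorm_sub_rev]

noncomputable def D (v : ℝ → ℝ) (t : ℝ) : ℝ≥0∞ := ∫⁻ x, ‖v (x + t) - v x‖ₑ ^ 2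

noncomputable def J (v : ℝ → ℝ) : ℝ≥0∞ := ∫⁻ t, D v t / ‖t‖ₑ ^ 2

theorem mD {v : ℝ → ℝ} (m : Measurable v) : Measurable (D v) :=
  Measurable.lintegral_prod_right' (f := fun p : ℝ × ℝ => ‖v (p.2 + p.1) - v p.2‖ₑ ^ 2)
    (by fun_prop)

theorem G_eq {v : ℝ → ℝ} (m : Measurable v) :
    ∫⁻ x, ∫⁻ y, ‖v x - v y‖ₑ ^ 2 / ‖x - y‖ₑ ^ 2 = J v := by
  have : ∀ x, ∫⁻ y, ‖v x - v y‖ₑ ^ 2 / ‖x - y‖ₑ ^ 2 =
      ∫⁻ t, ‖v (x + t) - v x‖ₑ ^ 2 / ‖t‖ₑ ^ 2 := fun x => by
    rw [← lintegral_add_left_eq_self _ x]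
    simp only [sub_add_cancel_left, enorm_neg, enorm_sub_rev (v x)]
  simp only [this]
  rw [lintegral_lintegral_swap (Measurable.aemeasurable (by fun_prop))]
  refine lintegral_congr fun t => ?_
  simp only [div_eq_mul_inv, D]
  rw [lintegral_mul_const _ (by fun_prop)]

theorem J_le {v : ℝ → ℝ} {A B r : ℝ} (hA : 0 ≤ A) (hB : 0 ≤ B) (hr : 0 < r)
    (h1 : ∀ t, D v t ≤ ENNReal.ofReal A) (h2 : ∀ t, D v t ≤ ENNReal.ofReal (B * t ^ 2)) :
    J v ≤ ENNReal.ofReal (π * (B * r + A / r)) := by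
  have i : Integrable fun t : ℝ => (B + A / r ^ 2) * (1 + (t / r) ^ 2)⁻¹ :=
    (integrable_inv_one_add_sq.comp_div hr.ne').const_mul _
  have e : ∫ t : ℝ, (B + A / r ^ 2) * (1 + (t / r) ^ 2)⁻¹ = π * (B * r + A / r) := by
    rw [integral_const_mul, Measure.integral_comp_div (fun t : ℝ => (1 + t ^ 2)⁻¹),
      integral_univ_inv_one_add_sq, abs_of_pos hr, smul_eq_mul]
    field_simp
  rw [← e, ofReal_integral_eq_lintegral_ofReal i (.of_forall fun t => by positivity)]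
  refine lintegral_mono fun t => ENNReal.div_le_of_le_mul ?_
  rw [← ofReal_norm, ← ENNReal.ofReal_pow (norm_nonneg _), ← ENNReal.ofReal_mul (by positivity),
    norm_eq_abs, sq_abs]
  have k : (B + A / r ^ 2) * (1 + (t / r) ^ 2)⁻¹ * t ^ 2 =
      (B * r ^ 2 + A) * t ^ 2 / (r ^ 2 + t ^ 2) := by field_simp
  rw [k]
  rcases le_total A (B * t ^ 2) with h | h
  · refine (h1 t).trans (ENNReal.ofReal_le_ofReal ?_)
    rw [le_div_iff₀ (by positivity)]
    nlinarith [mul_le_mul_of_nonneg_left h (sq_nonneg r)]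
  · refine (h2 t).trans (ENNReal.ofReal_le_ofReal ?_)
    rw [le_div_iff₀ (by positivity)]
    nlinarith [mul_le_mul_of_nonneg_left h (sq_nonneg t)]

theorem sq2 (a b : ℝ≥0∞) : (a + b) ^ 2 ≤ 2 * a ^ 2 + 2 * b ^ 2 := by
  have := ENNReal.rpow_add_le_mul_rpow_add_rpow a b (p := ((2 : ℕ) : ℝ)) (by norm_num)
  simp only [ENNReal.rpow_natCast] at this
  refine this.trans_eq ?_
  rw [← mul_add]
  norm_num

theorem J_add {v w : ℝ → ℝ} (mv : Measurable v) :
    J (fun x => v x + w x) ≤ 2 * J v + 2 * J w := by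
  have : ∀ t, D (fun x => v x + w x) t ≤ 2 * D v t + 2 * D w t := fun t => by
    unfold D
    rw [← lintegral_const_mul' _ _ (by simp), ← lintegral_const_mul' _ _ (by simp),
      ← lintegral_add_left (by fun_prop)]
    refine lintegral_mono fun x => le_trans (pow_le_pow_left₀ zero_le ?_ 2) (sq2 _ _)
    rw [show v (x + t) + w (x + t) - (v x + w x) = v (x + t) - v x + (w (x + t) - w x) by ring]
    exact enorm_add_le _ _
  unfold J
  have m := mD mv
  rw [← lintegral_const_mul' _ _ (by simp), ← lintegral_const_mul' _ _ (by simp),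
    ← lintegral_add_left (by fun_prop)]
  refine lintegral_mono fun t => ?_
  simp only [← mul_div_assoc, ← ENNReal.add_div]
  exact ENNReal.div_le_div_right (this t) _

theorem young {a w : ℝ → ℝ} (ma : Measurable a) (mw : Measurable w) (ε : ℝ) :
    ∫⁻ x, ‖∫ z, a z * w (x - ε * z)‖ₑ ^ 2 ≤ (∫⁻ z, ‖a z‖ₑ) ^ 2 * ∫⁻ x, ‖w x‖ₑ ^ 2 := by
  have p : ∀ x, ‖∫ z, a z * w (x - ε * z)‖ₑ ^ 2 ≤
      (∫⁻ z, ‖a z‖ₑ) * ∫⁻ z, ‖a z‖ₑ * ‖w (x - ε * z)‖ₑ ^ 2 := fun x => by
    have c := MP_598c7e_an.cs (a := fun z => ‖a z‖ₑ ^ (1 / 2 : ℝ))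
      (b := fun z => ‖a z‖ₑ ^ (1 / 2 : ℝ) * ‖w (x - ε * z)‖ₑ) (by fun_prop) (by fun_prop)
    have q : ∀ z, (‖a z‖ₑ ^ (1 / 2 : ℝ)) ^ 2 = ‖a z‖ₑ := fun z => by
      rw [← ENNReal.rpow_natCast, ← ENNReal.rpow_mul]; norm_num
    simp only [mul_pow, ← mul_assoc, ← pow_two, q] at c
    refine le_trans (pow_le_pow_left₀ zero_le ?_ 2) c
    simpa only [enorm_mul] using enorm_integral_le_lintegral_enorm (μ := volume)
      fun z => a z * w (x - ε * z)
  refine (lintegral_mono p).trans_eq ?_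
  rw [lintegral_const_mul _ (Measurable.lintegral_prod_right'
    (f := fun p : ℝ × ℝ => ‖a p.2‖ₑ * ‖w (p.1 - ε * p.2)‖ₑ ^ 2) (by fun_prop)),
    lintegral_lintegral_swap (Measurable.aemeasurable (by fun_prop))]
  have : ∀ z, ∫⁻ x, ‖a z‖ₑ * ‖w (x - ε * z)‖ₑ ^ 2 = ‖a z‖ₑ * ∫⁻ x, ‖w x‖ₑ ^ 2 := fun z => by
    rw [lintegral_const_mul _ (by fun_prop), lintegral_sub_right_eq_self (fun x => ‖w x‖ₑ ^ 2)]
  simp only [this]
  rw [lintegral_mul_const _ (by fun_prop)]
  ring

noncomputable def mol (η : ℝ → ℝ) (ε : ℝ) (u : ℝ → ℝ) (x : ℝ) : ℝ := ∫ z, η z * u (x - ε * z)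

theorem mmol {η u : ℝ → ℝ} (mη : Measurable η) (mu : Measurable u) (ε : ℝ) :
    Measurable (mol η ε u) :=
  (StronglyMeasurable.integral_prod_right' (f := fun p : ℝ × ℝ => η p.2 * u (p.1 - ε * p.2))
    (Measurable.stronglyMeasurable (by fun_prop))).measurable

theorem imol {η u : ℝ → ℝ} (hη : Integrable η) (mu : Measurable u) {C : ℝ} (b : ∀ x, ‖u x‖ ≤ C)
    (ε x : ℝ) : Integrable fun z => η z * u (x - ε * z) :=
  hη.mul_bdd (Measurable.aestronglyMeasurable (by fun_prop)) (.of_forall fun _ => b _)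

theorem J_mol1 {η u : ℝ → ℝ} (mη : Measurable η) (hη : Integrable η) (mu : Measurable u) {C : ℝ}
    (b : ∀ x, ‖u x‖ ≤ C) (ε : ℝ) : J (mol η ε u) ≤ ENNReal.ofReal ((∫ z, ‖η z‖) ^ 2) * J u := by
  unfold J
  rw [← lintegral_const_mul' _ _ (by simp)]
  refine lintegral_mono fun t => ?_
  rw [← mul_div_assoc, ENNReal.ofReal_pow (by positivity),
    ofReal_integral_norm_eq_lintegral_enorm hη]
  gcongr
  refine le_of_eq_of_le (lintegral_congr fun x => ?_)
    (young (w := fun x => u (x + t) - u x) mη (by fun_prop) ε)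
  simp only [mol, mul_sub]
  rw [← integral_sub (imol hη mu b ε _) (imol hη mu b ε _)]
  simp only [add_sub_right_comm]

theorem J_mol2 {η u : ℝ → ℝ} (mη : Measurable η) (hη : Integrable η) (mu : Measurable u)
    {C M o ε : ℝ} (b : ∀ x, ‖u x‖ ≤ C) (hM : 0 ≤ M) (ho : 0 ≤ o) (hε : 0 < ε)
    (H : ∀ s, ∫⁻ z, ‖η (z + s) - η z‖ₑ ≤ ENNReal.ofReal (M * |s|))
    (h2 : ∫⁻ x, ‖u x‖ₑ ^ 2 ≤ ENNReal.ofReal o) :
    J (mol η ε u) ≤ ENNReal.ofReal (π * (M ^ 2 + (2 * ∫ z, ‖η z‖) ^ 2) * (o / ε)) := by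
  have k : ∀ t c, 0 ≤ c → ∫⁻ z, ‖η (z + t / ε) - η z‖ₑ ≤ ENNReal.ofReal c →
      D (mol η ε u) t ≤ ENNReal.ofReal (c ^ 2 * o) := fun t c hc h => by
    refine (le_of_eq_of_le (lintegral_congr fun x => ?_)
      (young (a := fun z => η (z + t / ε) - η z) (by fun_prop) mu ε)).trans ?_
    · simp only [mol, sub_mul]
      rw [integral_sub (imol (hη.comp_add_right _) mu b ε _) (imol hη mu b ε _),
        ← integral_add_right_eq_self (fun z => η z * u (x + t - ε * z)) (t / ε)]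
      congr 5
      ext z
      congr 2
      field_simp
      ring
    · rw [ENNReal.ofReal_mul (by positivity), ENNReal.ofReal_pow hc]
      gcongr
  refine (J_le (A := (2 * ∫ z, ‖η z‖) ^ 2 * o) (B := M ^ 2 * o / ε ^ 2) (by positivity)
    (by positivity) hε (fun t => k t _ (by positivity) ?_)
    fun t => (k t _ (by positivity) (H _)).trans_eq ?_).trans_eq ?_
  · refine (lintegral_mono fun z => enorm_sub_le).trans_eq ?_
    rw [lintegral_add_left (by fun_prop), lintegral_add_right_eq_self (fun z => ‖η z‖ₑ),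
      ← ofReal_integral_norm_eq_lintegral_enorm hη, two_mul,
      ENNReal.ofReal_add (by positivity) (by positivity)]
  · rw [mul_pow, sq_abs]
    congr 1
    field_simp
  · congr 1
    field_simp

end Pool.Agent.H.MP_498700_an
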