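import Pool.Agent.H.MP_498700_an.A

set_option autoImplicit false

namespace Pool.Agent.H.MP_498700_an
open scoped ENNReal ContDiff Topology
open MeasureTheory Set Filter Real

noncomputable def h (k : ℕ) : ℝ := exp (-4 ^ k)

noncomputable def l (k : ℕ) : ℝ := 2 * π * 4 ^ k * h k

noncomputable def g (k : ℕ) (x : ℝ) : ℝ := sin (max 0 (min ((x - 8 * k) / h k) (2 * π * 4 ^ k)))

noncomputable def u (x : ℝ) : ℝ := g ⌊x / 8⌋₊ x

def I (k : ℕ) : Set ℝ := Icc (8 * k) (8 * k + l k)

theorem h0 (k : ℕ) : 0 < h k := exp_pos _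

theorem l0 (k : ℕ) : 0 < l k := by have := h0 k; unfold l; positivity

theorem l8 (k : ℕ) : l k < 8 := by
  have a : (4 : ℝ) ^ k * h k ≤ 1 := by
    rw [h, exp_neg, ← div_eq_mul_inv, div_le_one (exp_pos _)]
    linarith [add_one_le_exp ((4 : ℝ) ^ k)]
  have := h0 k
  have : 0 ≤ (4 : ℝ) ^ k * h k := by positivity
  unfold l
  nlinarith [pi_lt_four, pi_pos]

theorem lsucc (k : ℕ) : l (k + 1) ≤ l k / 2 := by
  have a : (1 : ℝ) ≤ 4 ^ k := one_le_pow₀ (by norm_num)
  have b : 8 * h (k + 1) ≤ h k := by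
    have e : h k = exp (3 * 4 ^ k) * h (k + 1) := by
      rw [h, h, ← exp_add]; congr 1; ring
    have : (8 : ℝ) ≤ exp (3 * 4 ^ k) := by
      refine le_trans ?_ (exp_le_exp.2 (by push_cast; linarith : ((3 : ℕ) : ℝ) * 1 ≤ 3 * 4 ^ k))
      rw [exp_nat_mul]
      have := add_one_le_exp (1 : ℝ)
      calc (8 : ℝ) = 2 ^ 3 := by norm_num
        _ ≤ _ := by gcongr; linarith
    rw [e]
    exact mul_le_mul_of_nonneg_right this (h0 _).le
  have : 0 ≤ π * 4 ^ k := by positivity
  unfold l
  rw [pow_succ]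
  nlinarith [mul_le_mul_of_nonneg_left b this]

theorem gI {k : ℕ} {x : ℝ} (hx : x ∉ I k) : g k x = 0 := by
  rw [I, mem_Icc, not_and_or, not_le, not_le] at hx
  unfold g
  rcases hx with hx | hx
  · rw [max_eq_left ((min_le_left _ _).trans (div_nonpos_of_nonpos_of_nonneg (by linarith)
      (h0 k).le)), sin_zero]
  · rw [min_eq_right (by rw [le_div_iff₀ (h0 k)]; unfold l at hx; linarith),
      max_eq_right (by positivity), show 2 * π * 4 ^ k = ((2 * 4 ^ k : ℕ) : ℝ) * π by
      push_cast; ring, sin_nat_mul_pi]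

theorem fl {k : ℕ} {x : ℝ} (hx : x ∈ I k) : ⌊x / 8⌋₊ = k := by
  rw [Nat.floor_eq_iff (div_nonneg (le_trans (by positivity) hx.1) (by norm_num))]
  constructor <;> linarith [hx.1, hx.2, l8 k]

theorem g1 (k : ℕ) (x : ℝ) : ‖g k x‖ ≤ 1 := abs_sin_le_one _

theorem cg (k : ℕ) : Continuous (g k) := by unfold g; fun_prop

theorem mu : Measurable u := by
  have a : Measurable fun p : ℝ × ℕ => g p.2 p.1 :=
    measurable_from_prod_countable_left fun k => (cg k).measurable
  have b : Measurable fun x : ℝ => (x, ⌊x / 8⌋₊) :=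
    measurable_id.prodMk (Nat.measurable_floor.comp (measurable_id.div_const 8))
  have c := a.comp b
  rw [Function.comp_def] at c
  exact c

theorem gl (k : ℕ) (x t : ℝ) : |g k (x + t) - g k x| ≤ |t| / h k := by
  unfold g
  refine (abs_sin_sub_sin_le _ _).trans ((abs_max_sub_max_le_max _ _ _ _).trans (max_le (by
    have := h0 k; simp; positivity) ((abs_min_sub_min_le_max _ _ _ _).trans (max_le ?_ (by
    have := h0 k; simp; positivity)))))
  rw [← sub_div, abs_div, abs_of_pos (h0 k)]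
  simp

theorem Dg (k : ℕ) (t c : ℝ) (H : ∀ x, |g k (x + t) - g k x| ≤ c) :
    D (g k) t ≤ ENNReal.ofReal (2 * l k * c ^ 2) := by
  have mI : MeasurableSet (I k) := measurableSet_Icc
  have c0 : 0 ≤ c := (abs_nonneg _).trans (H 0)
  calc D (g k) t ≤ ∫⁻ x, (I k ∪ (fun x => x + t) ⁻¹' I k).indicator
        (fun _ => ENNReal.ofReal (c ^ 2)) x := by
        refine lintegral_mono fun x => ?_
        by_cases hx : x ∈ I k ∪ (fun x => x + t) ⁻¹' I k
        · rw [indicator_of_mem hx, ENNReal.ofReal_pow c0, ← ofReal_norm]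
          gcongr
          exact H x
        · rw [mem_union, not_or] at hx
          simp [gI hx.1, gI (show x + t ∉ I k from hx.2)]
    _ ≤ ENNReal.ofReal (c ^ 2) * (volume (I k) + volume (I k)) := by
        rw [lintegral_indicator_const (mI.union (measurable_add_const t mI))]
        gcongr
        refine (measure_union_le _ _).trans_eq ?_
        rw [measure_preimage_add_right]
    _ = _ := by
        rw [I, Real.volume_Icc, add_sub_cancel_left, ← ENNReal.ofReal_add (l0 k).le (l0 k).le,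
          ← ENNReal.ofReal_mul (by positivity)]
        congr 1
        ring

theorem Jg (k : ℕ) : J (g k) ≤ ENNReal.ofReal (20 * π ^ 2 * 4 ^ k) := by
  have := h0 k
  have := l0 k
  refine (J_le (A := 2 * l k * 2 ^ 2) (B := 2 * l k / h k ^ 2) (by positivity) (by positivity)
    (h0 k) (fun t => Dg k t _ fun x => ?_) fun t => (Dg k t _ (gl k · t)).trans_eq ?_).trans_eq ?_
  · refine (abs_sub _ _).trans ?_
    linarith [(show |g k (x + t)| ≤ 1 from g1 k _), (show |g k x| ≤ 1 from g1 k _)]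
  · rw [div_pow, sq_abs]
    congr 1
    ring
  · congr 1
    unfold l
    field_simp
    ring

noncomputable def U (K : ℕ) (x : ℝ) : ℝ := ∑ k ∈ Finset.range K, g k x

noncomputable def W (K : ℕ) (x : ℝ) : ℝ := u x - U K x

theorem cU (K : ℕ) : Continuous (U K) := continuous_finsetSum _ fun k _ => cg k

theorem mW (K : ℕ) : Measurable (W K) := mu.sub (cU K).measurable

theorem JU (K : ℕ) : J (U K) ≤ ENNReal.ofReal (20 * π ^ 2 * 4 ^ K) := by
  induction K with
  | zero => simp [J, D, U]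
  | succ K ih =>
    have : U (K + 1) = fun x => U K x + g K x := funext fun x => Finset.sum_range_succ _ _
    rw [this]
    refine (J_add (cU K).measurable).trans ?_
    calc 2 * J (U K) + 2 * J (g K) ≤ 2 * ENNReal.ofReal (20 * π ^ 2 * 4 ^ K) +
          2 * ENNReal.ofReal (20 * π ^ 2 * 4 ^ K) := by gcongr; exact Jg K
      _ = _ := by
        rw [← ENNReal.ofReal_ofNat 2, ← ENNReal.ofReal_mul (by norm_num),
          ← ENNReal.ofReal_add (by positivity) (by positivity)]
        congr 1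
        ring

theorem Ueq (K : ℕ) (x : ℝ) : U K x = if ⌊x / 8⌋₊ < K then u x else 0 := by
  have : ∀ k ∈ Finset.range K, g k x = if ⌊x / 8⌋₊ = k then u x else 0 := fun k _ => by
    split_ifs with e
    · rw [u, e]
    · exact gI fun hx => e (fl hx)
  rw [U, Finset.sum_congr rfl this, Finset.sum_ite_eq]
  simp only [Finset.mem_range]

theorem U1 (K : ℕ) (x : ℝ) : ‖U K x‖ ≤ 1 := by
  rw [Ueq]; split_ifs
  · exact g1 _ _
  · simp

theorem W1 (K : ℕ) (x : ℝ) : ‖W K x‖ ≤ 1 := by
  rw [W, Ueq]; split_ifs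
  · simp
  · rw [sub_zero]; exact g1 _ _

theorem W2 (K : ℕ) : ∫⁻ x, ‖W K x‖ₑ ^ 2 ≤ ENNReal.ofReal (2 * l K) := by
  have a : ∀ j, l (K + j) ≤ l K * (1 / 2) ^ j := fun j => by
    induction j with
    | zero => simp
    | succ j ih => rw [← add_assoc, pow_succ]; linarith [lsucc (K + j)]
  calc ∫⁻ x, ‖W K x‖ₑ ^ 2 ≤ ∫⁻ x, (⋃ j, I (K + j)).indicator 1 x := by
        refine lintegral_mono fun x => ?_
        by_cases hx : x ∈ ⋃ j, I (K + j)
        · rw [indicator_of_mem hx, ← ofReal_norm]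
          exact pow_le_one₀ zero_le (ENNReal.ofReal_le_one.2 (W1 K x))
        · rw [W, Ueq]
          split_ifs with e
          · simp
          · obtain ⟨j, hj⟩ := Nat.exists_eq_add_of_le (not_lt.1 e)
            rw [u, hj, gI fun h => hx (mem_iUnion.2 ⟨j, h⟩)]
            simp
    _ ≤ ∑' j, ENNReal.ofReal (l K * (1 / 2) ^ j) := by
        rw [lintegral_indicator_one (s := ⋃ j, I (K + j))
          (MeasurableSet.iUnion fun _ => measurableSet_Icc)]
        refine (measure_iUnion_le _).trans (ENNReal.tsum_le_tsum fun j => ?_)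
        rw [I, Real.volume_Icc, add_sub_cancel_left]
        exact ENNReal.ofReal_le_ofReal (a j)
    _ = _ := by
        rw [← ENNReal.ofReal_tsum_of_nonneg (fun j => by have := l0 K; positivity)
          (summable_geometric_two.mul_left _), tsum_mul_left, tsum_geometric_two, mul_comm]

theorem upper {η : ℝ → ℝ} (mη : Measurable η) (hη : Integrable η) {M : ℝ} (hM : 0 ≤ M)
    (H : ∀ s, ∫⁻ z, ‖η (z + s) - η z‖ₑ ≤ ENNReal.ofReal (M * |s|)) :
    ∃ C : ℝ, ∀ ε ∈ Ioo 0 (h 0), J (mol η ε u) ≤ ENNReal.ofReal C * ENNReal.ofReal |log ε| := by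
  obtain ⟨L, hL⟩ : ∃ L, L = ∫ z, ‖η z‖ := ⟨_, rfl⟩
  refine ⟨4 * (2 * (L ^ 2 * (20 * π ^ 2)) + 2 * (π * (M ^ 2 + (2 * L) ^ 2) * (4 * π))),
    fun ε hε => ?_⟩
  have ex : ∃ K, h K < ε := by
    obtain ⟨K, hK⟩ := pow_unbounded_of_one_lt (-log ε) (by norm_num : (1 : ℝ) < 4)
    exact ⟨K, by rw [h, ← lt_log_iff_exp_lt hε.1]; linarith⟩
  obtain ⟨K, hK⟩ : ∃ K, Nat.find ex = K + 1 :=
    Nat.exists_eq_succ_of_ne_zero fun e => absurd (e ▸ Nat.find_spec ex) (not_lt.2 hε.2.le)
  have k1 : h (K + 1) < ε := hK ▸ Nat.find_spec ex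
  have k2 : (4 : ℝ) ^ K ≤ |log ε| := by
    have := not_lt.1 (Nat.find_min ex (m := K) (by omega))
    rw [h, ← log_le_iff_le_exp hε.1] at this
    linarith [neg_le_abs (log ε)]
  have e : mol η ε u = fun x => mol η ε (U (K + 1)) x + mol η ε (W (K + 1)) x := by
    ext x
    rw [mol, mol, mol, ← integral_add (imol hη (cU _).measurable (U1 _) _ _)
      (imol hη (mW _) (W1 _) _ _)]
    simp only [W, ← mul_add, add_sub_cancel]
  have a1 := (J_mol1 mη hη (cU (K + 1)).measurable (U1 _) ε).trans (mul_le_mul_right (JU _) _)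
  have a2 := J_mol2 mη hη (mW (K + 1)) (W1 _) hM (by have := l0 (K + 1); positivity) hε.1 H (W2 _)
  have a3 : 2 * l (K + 1) / ε ≤ 4 * π * 4 ^ (K + 1) := by
    rw [div_le_iff₀ hε.1, l]
    have : 0 ≤ π * 4 ^ (K + 1) := by positivity
    nlinarith [mul_le_mul_of_nonneg_left k1.le this]
  rw [← hL] at a1 a2
  rw [e]
  refine (J_add (mmol mη (cU _).measurable ε)).trans ((add_le_add (mul_le_mul_right a1 _)
    (mul_le_mul_right (a2.trans (ENNReal.ofReal_le_ofReal
    (mul_le_mul_of_nonneg_left a3 (by positivity)))) _)).trans ?_)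
  rw [← ENNReal.ofReal_ofNat 2, ← ENNReal.ofReal_mul (by positivity),
    ← ENNReal.ofReal_mul (by positivity), ← ENNReal.ofReal_mul (by positivity),
    ← ENNReal.ofReal_add (by positivity) (by positivity), ← ENNReal.ofReal_mul (by positivity)]
  refine ENNReal.ofReal_le_ofReal (le_of_eq_of_le ?_ (mul_le_mul_of_nonneg_left k2 (by positivity)))
  ring

theorem lower (k : ℕ) : (k : ℝ≥0∞) ≤ D u (π * h k) / ‖π * h k‖ₑ := by
  have := h0 k
  have m1 : (1 : ℝ) ≤ 4 ^ k := one_le_pow₀ (by norm_num)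
  have hl : π * h k ≤ l k := by
    have : 0 ≤ π * h k := by positivity
    unfold l; nlinarith
  have e : ∀ x ∈ Ioc (8 * k : ℝ) (8 * k + (l k - π * h k)),
      ‖u (x + π * h k) - u x‖ₑ ^ 2 = ENNReal.ofReal (4 * sin ((x - 8 * k) / h k) ^ 2) :=
    fun x hx => by
      have p : 0 < π * h k := by positivity
      have gv : ∀ y ∈ I k, u y = sin ((y - 8 * k) / h k) := fun y hy => by
        rw [u, fl hy, g, min_eq_left (by
          rw [div_le_iff₀ this]; have := hy.2; unfold l at this; linarith),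
          max_eq_right (div_nonneg (by linarith [hy.1]) this.le)]
      rw [gv _ ⟨by linarith [hx.1], by linarith [hx.2]⟩, gv _ ⟨hx.1.le, by linarith [hx.2]⟩,
        show (x + π * h k - 8 * k) / h k = (x - 8 * k) / h k + π by field_simp; ring, sin_add_pi,
        ← ofReal_norm, ← ENNReal.ofReal_pow (norm_nonneg _), norm_eq_abs, sq_abs]
      congr 1
      ring
  have v : ∫ x in (8 * k : ℝ)..(8 * k + (l k - π * h k)), 4 * sin ((x - 8 * k) / h k) ^ 2 =
      2 * (l k - π * h k) := by
    rw [intervalIntegral.integral_const_mul,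
      intervalIntegral.integral_comp_sub_right (fun x => sin (x / h k) ^ 2),
      intervalIntegral.integral_comp_div (fun x => sin x ^ 2) this.ne', integral_sin_sq,
      sub_self, zero_div, add_sub_cancel_left,
      show (l k - π * h k) / h k = ((2 * 4 ^ k : ℕ) : ℝ) * π - π by
        unfold l; push_cast; field_simp, sin_sub_pi, sin_nat_mul_pi]
    simp only [sin_zero, smul_eq_mul, l]
    push_cast
    ring
  rw [ENNReal.le_div_iff_mul_le (Or.inl (enorm_ne_zero.2 (by positivity))) (Or.inl enorm_ne_top)]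
  refine le_trans ?_ (setLIntegral_le_lintegral (Ioc (8 * k : ℝ) (8 * k + (l k - π * h k))) _)
  rw [setLIntegral_congr_fun measurableSet_Ioc e, ← ofReal_integral_eq_lintegral_ofReal
    (Continuous.integrableOn_Ioc (by fun_prop)) (.of_forall fun x => by positivity),
    ← intervalIntegral.integral_of_le (by linarith), v, ← ofReal_norm, ← ENNReal.ofReal_natCast,
    ← ENNReal.ofReal_mul (by positivity), norm_of_nonneg (by positivity)]
  refine ENNReal.ofReal_le_ofReal ?_
  have : (k : ℝ) ≤ 4 ^ k := by exact_mod_cast (Nat.lt_pow_self (by norm_num : 1 < 4)).le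
  have : 0 ≤ π * h k := by positivity
  unfold l
  nlinarith

end Pool.Agent.H.MP_498700_an
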